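import Mathlib
import Pool.Agent.Helper36.Niho.Exponent
import Pool.Agent.Helper36.Niho.Reduction
import Pool.Agent.Helper36.Niho.Arith

set_option autoImplicit false
set_option linter.style.haveILetI false

/-!
# Four-valued Niho-type decimations: structure theorem, and the conjecture unless `k/2` is composite

Idea of the proof.  Write `q = 2 ^ k`, let `U` be the group of norm-one elements of `GF(q ^ 2)` and
`P_w = (w, w ^ d)`, `w ∈ U`, a set of `q + 1` points of `PG(3, q)`; by Niho's theorem the values of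
`C_d` are `-1 + (N - 1) q` for the plane intersection numbers `N` of this set.
* The planes with coordinates in `U` and in `GF(q)`, two moment identities and a new identity for
  the sum of `N` over the orbit of a plane under the cyclic group `U` give the structure theorem.
* Projection from `P_1` gives the graph of a permutation of `GF(q)` met by every line in `0`, `1`
  or `2 ^ g` points.  If `g = 1` the slopes of the secants at a point are all nonzero elements.  If
  `2 * g = k` a count of directions and Redei polynomials show that every determined direction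
  occurs at every point.  In both cases the sum of the slopes of the secants at a point does not
  depend on the point, and an explicit formula for this sum turns this into a statement about
  parities of multiples of an integer modulo `q + 1`, which forces that integer to be `± 2 ^ r`.
-/

namespace Pool.Agent.Results.MP_5c9cd2_nt.FourValuedStructure

open Finset Classical

/-- The cross-correlation `C_d(τ) = ∑_{x ≠ 0} (-1)^{Tr(a x + x^d)}`, `d = s (2^k - 1) + 1`, at
`a = α^τ`; `Tr` is the absolute trace of `GF(2^(2k))`. -/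
noncomputable def crossCorr (k s : ℕ) {F : Type} [Field F] [Fintype F] (a : F) : ℤ :=
  ∑ x ∈ univ.filter (fun x : F => x ≠ 0),
    if (∑ i ∈ Finset.range (2 * k), (a * x + x ^ (s * (2 ^ k - 1) + 1)) ^ (2 ^ i)) = 0
      then (1 : ℤ) else -1

/-- The set of values of the cross-correlation. -/
noncomputable def corrValues (k s : ℕ) (F : Type) [Field F] [Fintype F] : Finset ℤ :=
  (univ.filter (fun a : F => a ≠ 0)).image (fun a : F => crossCorr k s a)

/-- The conjectured form of `s`: `s = 2^r (2^r ± 1)⁻¹` modulo `2^k + 1` for some `r ≥ 1` with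
`v_2(r) < v_2(k)`. -/
def ConjecturedForm (k s : ℕ) : Prop :=
  ∃ r : ℕ, 0 < r ∧ padicValNat 2 r < padicValNat 2 k ∧
    ((s : ℤ) * (2 ^ r + 1) ≡ 2 ^ r [ZMOD (2 ^ k + 1 : ℤ)] ∨
     (s : ℤ) * (2 ^ r - 1) ≡ 2 ^ r [ZMOD (2 ^ k + 1 : ℤ)])

open Pool.Agent.Helper36.Niho in
/-- **Structure theorem for four-valued Niho-type decimations**, and the conjectured form of `s`
when `g = 1` or `g = k / 2`, hence for all `k` for which `k / 2` is `1` or a prime. -/
theorem result (k s : ℕ) (hk : 1 ≤ k)
    (hs : Nat.Coprime (s * (2 ^ k - 1) + 1) (2 ^ (2 * k) - 1))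
    (F : Type) [Field F] [Fintype F] (hF : Fintype.card F = 2 ^ (2 * k))
    (h4 : (corrValues k s F).card = 4) :
    (∃ g : ℕ, 1 ≤ g ∧ 2 * g ∣ k ∧
      corrValues k s F = {-1 - 2 ^ k, -1, -1 + 2 ^ k, -1 + 2 ^ (k + g)} ∧
      IsCoprime ((s : ℤ) * (s - 1)) (2 ^ k + 1) ∧
      ((g = 1 ∨ 2 * g = k) → ConjecturedForm k s)) ∧
    ((k = 2 ∨ (k / 2).Prime) → ConjecturedForm k s) := by
  set q := 2 ^ k with hq
  have hS : Setup F k q := ⟨hk, hq, by rw [hF, hq, ← pow_mul, mul_comm]⟩
  set e := s * (q - 1) + 1 with he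
  have hq2 := hS.q_ge
  have he1 : 1 ≤ e := by omega
  have hfac : 2 ^ (2 * k) - 1 = (q + 1) * (q - 1) := by
    rw [mul_comm 2 k, pow_mul, ← hq]
    obtain ⟨t, ht⟩ : ∃ t, q = t + 1 := ⟨q - 1, by omega⟩
    rw [ht]
    simp only [Nat.add_sub_cancel]
    have : (t + 1) ^ 2 = (t + 1 + 1) * t + 1 := by ring
    omega
  have hce : Nat.Coprime (q + 1) e := by
    rw [hfac] at hs
    exact (Nat.Coprime.coprime_mul_right_right hs).symm
  -- values
  have hval : ∀ a : F, crossCorr k s a = -1 + q * ((NN q e a : ℤ) - 1) := by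
    intro a
    have h1 := hS.niho s a
    unfold crossCorr
    have h2 : (univ.filter fun x : F => x ≠ 0) = (univ : Finset F).erase 0 := by
      ext x; simp
    rw [h2]
    have h3 := Finset.add_sum_erase (univ : Finset F)
      (fun x => sg (TF k (a * x + x ^ (s * (q - 1) + 1)))) (Finset.mem_univ 0)
    rw [h1] at h3
    have h5 : sg (TF k (a * 0 + (0 : F) ^ (s * (q - 1) + 1))) = 1 := by
      rw [mul_zero, zero_pow (by omega), add_zero, TF_zero, sg_zero]
    have h6 : ∑ x ∈ (univ : Finset F).erase 0, sg (TF k (a * x + x ^ (s * (q - 1) + 1))) =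
        -1 + q * ((NN q e a : ℤ) - 1) := by
      rw [he]
      simp only [h5] at h3
      linarith
    exact h6
  let G : ℕ → ℤ := fun m => -1 + q * ((m : ℤ) - 1)
  have hGinj : Function.Injective G := by
    intro m m' h
    simp only [G] at h
    have h1 : (q : ℤ) * ((m : ℤ) - 1) = q * ((m' : ℤ) - 1) := by linarith
    have h2 : (q : ℤ) ≠ 0 := by exact_mod_cast (by omega : q ≠ 0)
    have h3 := mul_left_cancel₀ h2 h1
    omega
  have himg : corrValues k s F = (VV F q e).image G := by
    unfold corrValues VV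
    rw [Finset.image_image]
    apply Finset.image_congr
    intro a _
    exact hval a
  have hV : (VV F q e).card = 4 := by
    rw [himg, Finset.card_image_of_injective _ hGinj] at h4
    exact h4
  obtain ⟨g, hg1, hgk, hVeq, -, hNN⟩ := hS.thmB he1 hce hV
  obtain ⟨hA1, hA2⟩ := hS.thmA he1 hce hV
  have hq4 := hS.q_ge_four hV
  -- integer congruences
  have hqZ : (q : ℤ) = 2 ^ k := by rw [hq]; push_cast; rfl
  have heZ : (e : ℤ) = s * ((q : ℤ) - 1) + 1 := by
    rw [he]; push_cast [Nat.cast_sub (by omega : 1 ≤ q)]; ring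
  have hcop2 : IsCoprime (2 : ℤ) (2 ^ k + 1) := by
    refine ⟨-2 ^ (k - 1), 1, ?_⟩
    have : (2 : ℤ) ^ k = 2 ^ (k - 1) * 2 := by rw [← pow_succ]; congr 1; omega
    rw [this]; ring
  have hs2 : IsCoprime (2 * (s : ℤ) - 1) (2 ^ k + 1) := by
    have h1 : IsCoprime ((e : ℤ)) ((q + 1 : ℕ) : ℤ) := (Nat.isCoprime_iff_coprime.2 hce).symm
    obtain ⟨a, b, hab⟩ := h1
    refine ⟨-a, b + a * s, ?_⟩
    rw [heZ] at hab
    push_cast at hab
    rw [hqZ] at hab
    linear_combination hab
  have hss : IsCoprime ((s : ℤ)) (2 ^ k + 1) := by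
    have h1 : IsCoprime (((e - 1 : ℕ) : ℤ)) ((q + 1 : ℕ) : ℤ) :=
      (Nat.isCoprime_iff_coprime.2 hA1).symm
    obtain ⟨a, b, hab⟩ := h1
    refine ⟨a * (q - 1), b, ?_⟩
    rw [Nat.cast_sub he1, heZ] at hab
    push_cast at hab
    rw [← hqZ]
    linear_combination hab
  have hss1 : IsCoprime ((s : ℤ) - 1) (2 ^ k + 1) := by
    have h1 : IsCoprime (((e + 1 : ℕ) : ℤ)) ((q + 1 : ℕ) : ℤ) :=
      (Nat.isCoprime_iff_coprime.2 hA2).symm
    obtain ⟨a, b, hab⟩ := h1
    refine ⟨-2 * a, b + a * s, ?_⟩
    push_cast at hab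
    rw [heZ] at hab
    rw [← hqZ]
    linear_combination hab
  have hconj : (g = 1 ∨ 2 * g = k) → ConjecturedForm k s := by
    intro hg
    obtain ⟨ψ, hψ0, hψlt, hψe, i, hi⟩ := hS.exponent he1 hce hA1 hA2 hq4 hNN hg
    apply conclusion hk (ψ := (ψ : ℤ)) (i := i) _ hs2
    · rcases hi with hi | hi
      · left
        rw [hi]
        push_cast
        rfl
      · right
        have h1 : (ψ : ℤ) = (2 ^ k + 1) - 2 ^ i := by
          have h2 : ψ + 2 ^ i = q + 1 := by omega
          have h3 : ((ψ + 2 ^ i : ℕ) : ℤ) = ((q + 1 : ℕ) : ℤ) := by rw [h2]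
          push_cast at h3
          rw [hqZ] at h3
          linarith
        rw [h1, Int.modEq_iff_dvd]
        exact ⟨-1, by ring⟩
    · -- ψ (e + 1) = e - 1 gives ψ (s - 1) = s
      have h1 : ((ψ * (e + 1) : ℕ) : ℤ) ≡ ((e - 1 : ℕ) : ℤ) [ZMOD ((q + 1 : ℕ) : ℤ)] :=
        Int.natCast_modEq_iff.2 hψe
      rw [Nat.cast_sub he1] at h1
      push_cast at h1
      rw [heZ, hqZ] at h1
      rw [Int.modEq_iff_dvd] at h1 ⊢
      obtain ⟨t, ht⟩ := h1
      have h2 : ((2 : ℤ) ^ k + 1) ∣ 2 * ((s : ℤ) - ψ * (s - 1)) := by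
        refine ⟨(s : ℤ) - ψ * s - t, ?_⟩
        linear_combination -ht
      exact hcop2.symm.dvd_of_dvd_mul_left h2
  refine ⟨⟨g, hg1, hgk, ?_, hss.mul_left hss1, hconj⟩, ?_⟩
  · have g0 : G 0 = -1 - 2 ^ k := by
      simp only [G]; rw [hqZ]; push_cast; ring
    have g1 : G 1 = -1 := by
      simp only [G]; push_cast; ring
    have g2 : G 2 = -1 + 2 ^ k := by
      simp only [G]; rw [hqZ]; push_cast; ring
    have g3 : G (2 ^ g + 1) = -1 + 2 ^ (k + g) := by
      simp only [G]; rw [hqZ]; push_cast; rw [pow_add]; ring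
    rw [himg, hVeq, Finset.image_insert, Finset.image_insert, Finset.image_insert,
      Finset.image_singleton, g0, g1, g2, g3]
  · intro hkk
    apply hconj
    obtain ⟨t, ht⟩ := hgk
    have hk2 : k / 2 = g * t := by
      rw [ht, mul_assoc]
      exact Nat.mul_div_cancel_left _ (by norm_num)
    rcases hkk with h | h
    · left
      rw [h] at hk2
      norm_num at hk2
      exact Nat.eq_one_of_mul_eq_one_right hk2.symm
    · have h1 : g ∣ k / 2 := ⟨t, hk2⟩
      rcases (Nat.dvd_prime h).1 h1 with h2 | h2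
      · left; exact h2
      · right
        have h3 : t = 1 := by
          rw [← h2] at hk2
          have : g * t = g * 1 := by omega
          exact Nat.eq_of_mul_eq_mul_left (by omega) this
        rw [ht, h3, mul_one]

end Pool.Agent.Results.MP_5c9cd2_nt.FourValuedStructure
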